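import Mathlib

set_option autoImplicit false

namespace Pool.Agent.H.MP_4a8797_al

open SemidirectProduct
open scoped commutatorElement

@[ext] structure Cx {V Z : Type} [AddCommGroup V] [AddCommGroup Z] (γ : V →+ V →+ Z) where
  v : V
  z : Z

section
variable {V Z : Type} [AddCommGroup V] [AddCommGroup Z] {γ : V →+ V →+ Z}

instance : Mul (Cx γ) := ⟨fun a b => ⟨a.v + b.v, a.z + b.z + γ a.v b.v⟩⟩
instance : One (Cx γ) := ⟨⟨0, 0⟩⟩
instance : Inv (Cx γ) := ⟨fun a => ⟨-a.v, -a.z + γ a.v a.v⟩⟩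

@[simp] theorem mul_v (a b : Cx γ) : (a * b).v = a.v + b.v := rfl
@[simp] theorem mul_z (a b : Cx γ) : (a * b).z = a.z + b.z + γ a.v b.v := rfl
@[simp] theorem one_v : (1 : Cx γ).v = 0 := rfl
@[simp] theorem one_z : (1 : Cx γ).z = 0 := rfl
@[simp] theorem inv_v (a : Cx γ) : a⁻¹.v = -a.v := rfl
@[simp] theorem inv_z (a : Cx γ) : a⁻¹.z = -a.z + γ a.v a.v := rfl

instance : Group (Cx γ) := Group.ofLeftAxioms
  (fun a b c => by ext <;> simp <;> abel) (fun a => by ext <;> simp) (fun a => by ext <;> simp)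

theorem card_cx : Nat.card (Cx γ) = Nat.card V * Nat.card Z :=
  Nat.card_prod V Z ▸ Nat.card_congr ⟨fun a => (a.v, a.z), fun a => ⟨a.1, a.2⟩, fun _ => rfl,
    fun _ => rfl⟩

theorem comm_iff (a b : Cx γ) : ⁅a, b⁆ = 1 ↔ γ a.v b.v = γ b.v a.v := by
  rw [commutatorElement_eq_one_iff_mul_comm, Cx.ext_iff]
  simp [add_comm]

end

def P2 (X : Type) : Prop := ∃ n, Nat.card X = 2 ^ n

theorem P2.fin {X : Type} (h : P2 X) : Finite X :=
  h.elim fun _ e => Nat.finite_of_card_ne_zero (e ▸ by positivity)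

theorem P2.of {X Y W : Type} (h : P2 X) (k : P2 Y) (e : Nat.card W = Nat.card X * Nat.card Y) :
    P2 W := h.elim fun a ha => k.elim fun b hb => ⟨a + b, by rw [e, ha, hb, pow_add]⟩

theorem P2.fn {Y : Type} (X : Type) [Finite X] (k : P2 Y) : P2 (X → Y) :=
  k.elim fun b hb => ⟨b * Nat.card X, by rw [Nat.card_fun, hb, pow_mul]⟩

theorem p2z (m : ℕ) : P2 (ZMod (2 ^ m)) := ⟨m, Nat.card_zmod _⟩

section
variable {G : Type} [Group G] (H : Subgroup G) [Fintype H] (w : G)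

def gE : (G → ZMod 2) →+ (G → ZMod 2) →+ (G → ZMod 2) :=
  AddMonoidHom.mk' (fun m => AddMonoidHom.mk' (fun m' x => ∑ u : H, m (x * u) * m' (x * u * w))
    fun a b => by ext; simp [mul_add, Finset.sum_add_distrib])
    fun a b => by ext; simp [add_mul, Finset.sum_add_distrib]

theorem gE_apply (m m' : G → ZMod 2) (x : G) :
    gE H w m m' x = ∑ u : H, m (x * u) * m' (x * u * w) := rfl

def act : G →* MulAut (Cx (gE H w)) where
  toFun g :=
    { toFun := fun a => ⟨fun x => a.v (g⁻¹ * x), fun x => a.z (g⁻¹ * x)⟩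
      invFun := fun a => ⟨fun x => a.v (g * x), fun x => a.z (g * x)⟩
      left_inv := fun a => by ext <;> simp
      right_inv := fun a => by ext <;> simp
      map_mul' := fun a b => by ext <;> simp [gE_apply, mul_assoc] }
  map_one' := by ext <;> simp
  map_mul' g h := by ext <;> simp [mul_assoc]

theorem act_v (g : G) (a : Cx (gE H w)) (x : G) : (act H w g a).v x = a.v (g⁻¹ * x) := rfl

abbrev KK := Cx (gE H w) ⋊[act H w] G

variable {H w}

theorem inv_zero (f : G → ZMod 2) (x : G) {t : G} (ht : t ∈ H) (h1 : t ≠ 1) (h2 : t * t = 1) :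
    ∑ u : H, f (x * u) * f (x * u * t) = 0 :=
  Finset.sum_ninvolution (fun u => u * ⟨t, ht⟩) (fun u => by
      simp only [Subgroup.coe_mul, mul_assoc, h2, mul_one]
      rw [mul_comm, CharTwo.add_self_eq_zero])
    (fun u _ e => h1 (by simpa [Subtype.ext_iff] using e)) (fun _ => Finset.mem_univ _)
    fun u => by ext; simp [mul_assoc, h2]

theorem conj_inl (c : KK H w) (n : Cx (gE H w)) :
    c * inl n * c⁻¹ = inl (c.left * act H w c.right n * c.left⁻¹) := by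
  ext1 <;> simp

theorem test (hc : ∀ h ∈ H, ∀ g, h * g = g * h) (hw : w ∈ H) (c : KK H w) (h : c.right ∈ H)
    (n : Cx (gE H w)) : ⁅(inl n : KK H w), c * inl n * c⁻¹⁆ = 1 ↔ ∀ x,
      ∑ u : H, n.v (x * u) * n.v (x * u * (c.right⁻¹ * w)) =
      ∑ u : H, n.v (x * u) * n.v (x * u * (c.right * w)) := by
  rw [conj_inl, ← map_commutatorElement, map_eq_one_iff _ inl_injective, comm_iff, funext_iff]
  have e : (c.left * act H w c.right n * c.left⁻¹).v = fun x => n.v (x * c.right⁻¹) := by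
    ext x; simp only [mul_v, inv_v, add_neg_cancel_comm, act_v, hc _ (H.inv_mem h)]
  simp only [e, gE_apply]
  refine forall_congr' fun x => Eq.congr ?_ ?_
  · simp only [mul_assoc, hc _ hw]
  · rw [← Equiv.sum_comp (Equiv.mulRight (⟨_, h⟩ : H))]
    simp [mul_assoc]

theorem law (hc : ∀ h ∈ H, ∀ g, h * g = g * h) (hw : w ∈ H) (h4 : w * w * (w * w) = 1)
    (y c : KK H w) (hy : y.right = 1) (h : c.right ∈ H)
    (k : c.right * c.right = 1 ∨ c.right * c.right = w * w ∧ c.right ≠ w ∧ c.right ≠ w⁻¹) :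
    ⁅y, c * y * c⁻¹⁆ = 1 := by
  obtain ⟨n, rfl⟩ : y ∈ (inl : _ →* KK H w).range := by
    rw [range_inl_eq_ker_rightHom]; exact hy
  refine (test hc hw c h n).2 fun x => ?_
  rcases k with k | ⟨k1, k2, k3⟩
  · rw [inv_eq_of_mul_eq_one_right k]
  · have e : c.right * w * (c.right * w) = 1 := by
      rw [← h4, mul_assoc, ← mul_assoc w, hc w hw c.right, mul_assoc, ← mul_assoc, k1]
    have e' : c.right⁻¹ * w * (c.right⁻¹ * w) = 1 := by
      rw [mul_assoc, ← mul_assoc w, hc w hw c.right⁻¹, mul_assoc, ← k1]; group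
    rw [inv_zero _ _ (H.mul_mem h hw) (fun e => k3 (eq_inv_of_mul_eq_one_left e)) e,
      inv_zero _ _ (H.mul_mem (H.inv_mem h) hw) (fun e => k2 (inv_mul_eq_one.1 e)) e']

theorem comm_inl (n : Cx (gE H w)) (g : G) :
    ⁅(inl n : KK H w), (inr g : KK H w)⁆ = inl (n * (act H w g n)⁻¹) := by
  ext1 <;> simp [commutatorElement_def]

theorem nonlaw [DecidableEq G] (hc : ∀ h ∈ H, ∀ g, h * g = g * h) (hw : w ∈ H)
    (h4 : w * w * (w * w) = 1) (h2 : w * w ≠ 1) {s t : G} (hs : s ∉ H) (ht : t ∉ H)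
    (hst : t * s ∉ H) (y : KK H w)
    (hy : y = ⁅⁅(inl ⟨Pi.single 1 1, 0⟩ : KK H w), (inr s : KK H w)⁆, (inr t : KK H w)⁆) :
    ⁅y, inr w * y * (inr w)⁻¹⁆ ≠ 1 := by
  rw [hy, comm_inl, comm_inl, Ne, test hc hw _ hw]
  intro h
  have h := h 1
  rw [right_inr, inv_zero _ _ (H.mul_mem hw hw) h2 h4] at h
  have a1 : ∀ u : H, s⁻¹ * (u : G) ≠ 1 := fun u e => hs (inv_mul_eq_one.1 e ▸ u.2)
  have a2 : ∀ u : H, t⁻¹ * (u : G) ≠ 1 := fun u e => ht (inv_mul_eq_one.1 e ▸ u.2)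
  have a3 : ∀ u : H, s⁻¹ * (t⁻¹ * (u : G)) ≠ 1 := fun u e =>
    hst ((inv_mul_eq_one.1 (by rw [← e]; group) : t * s = u) ▸ u.2)
  simp [act_v, a1, a2, a3, Pi.single_apply] at h

end

end Pool.Agent.H.MP_4a8797_al
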