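import Pool.Agent.H.MP_4a8797_al.A

set_option autoImplicit false

namespace Pool.Agent.H.MP_4a8797_al

open SemidirectProduct
open scoped commutatorElement

section
variable {G G' : Type} [Group G] [Group G']

def sq (x : ℕ → G) : ℕ → G
  | 0 => 1
  | k + 1 => sq x k * (x (k + 4) * x (k + 4))

def vv (k : ℕ) (x : ℕ → G) : G := ⁅⁅⁅x 0, x 1⁆, x 2⁆, sq x k * ⁅⁅x 0, x 1⁆, x 2⁆ * (sq x k)⁻¹⁆

def ww (k : ℕ) (x : ℕ → G) : G := ⁅vv k x, x 3 * vv k x * (x 3)⁻¹⁆

def uu (k : ℕ) (a b : G) : G := ww k fun i => ⁅a, b ^ (i + 1)⁆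

theorem map_sq (f : G →* G') (x : ℕ → G) (k : ℕ) : f (sq x k) = sq (fun i => f (x i)) k := by
  induction k with
  | zero => exact map_one f
  | succ k ih => simp [sq, ih]

theorem map_vv (f : G →* G') (x : ℕ → G) (k : ℕ) : f (vv k x) = vv k fun i => f (x i) := by
  simp [vv, map_sq]

theorem map_ww (f : G →* G') (x : ℕ → G) (k : ℕ) : f (ww k x) = ww k fun i => f (x i) := by
  simp [ww, map_vv]

theorem map_uu (f : G →* G') (a b : G) (k : ℕ) : f (uu k a b) = uu k (f a) (f b) := by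
  simp [uu, map_ww]

theorem sq_congr {x y : ℕ → G} {k : ℕ} (h : ∀ i < k, x (i + 4) = y (i + 4)) : sq x k = sq y k := by
  induction k with
  | zero => rfl
  | succ k ih => rw [sq, sq, ih fun i hi => h i (by omega), h k (by omega)]

theorem vv_congr {x y : ℕ → G} {k : ℕ} (h : ∀ i < k + 4, i ≠ 3 → x i = y i) : vv k x = vv k y := by
  rw [vv, vv, h 0 (by omega) (by omega), h 1 (by omega) (by omega), h 2 (by omega) (by omega),
    sq_congr fun i hi => h (i + 4) (by omega) (by omega)]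

theorem ww_congr {x y : ℕ → G} {k : ℕ} (h : ∀ i < k + 4, x i = y i) : ww k x = ww k y := by
  rw [ww, ww, h 3 (by omega), vv_congr fun i hi _ => h i hi]

abbrev Wr (A Q : Type) [Group A] [Group Q] := (Q → A) ⋊[mulAutArrow] Q

theorem arr {A Q : Type} [Group A] [Group Q] (g a : Q) (f : Q → A) :
    (mulAutArrow g : MulAut (Q → A)) f a = f (g⁻¹ * a) := rfl

theorem p2w (h : P2 G) (k : P2 G') : P2 (Wr G G') :=
  haveI := k.fin; (h.fn G').of k SemidirectProduct.card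

theorem ex_inl {φ : G' →* MulAut G} (y : G ⋊[φ] G') (h : y.right = 1) : ∃ n, y = inl n :=
  ⟨y.left, by ext1 <;> simp [h]⟩

theorem law2 {A : Type} [CommGroup A] {k : ℕ} (h : ∀ x : ℕ → G, vv k x = 1) (x : ℕ → Wr A G) :
    ww k x = 1 := by
  have e : (vv k x).right = 1 := (map_vv rightHom x k).trans (h _)
  obtain ⟨n, hn⟩ := ex_inl _ e
  obtain ⟨m, hm⟩ := ex_inl (x 3 * vv k x * (x 3)⁻¹) (by simp [e])
  rw [ww, hm, hn, ← map_commutatorElement, commutatorElement_eq_one_iff_mul_comm.2 (mul_comm _ _),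
    map_one]

theorem non2 {k : ℕ} (m : ℕ) (a : ℕ → G) (h : vv k a ≠ 1) :
    ∃ x : ℕ → Wr (Multiplicative (ZMod m)) G, ∀ N, ww k x ^ N = 1 → m ∣ 2 * N := by
  classical
  let x : ℕ → Wr (Multiplicative (ZMod m)) G := fun i =>
    if i = 3 then inl (Pi.mulSingle 1 (.ofAdd 1)) else inr (a i)
  refine ⟨x, fun N hN => ?_⟩
  have e1 : vv k x = inr (vv k a) :=
    (vv_congr fun i _ hi => if_neg hi).trans (map_vv inr a k).symm
  rw [ww, e1, show x 3 = _ from if_pos rfl] at hN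
  clear e1
  generalize vv k a = c at h hN
  obtain ⟨n, hn⟩ := ex_inl ⁅(inr c : Wr (Multiplicative (ZMod m)) G),
    (inl (Pi.mulSingle 1 (.ofAdd 1)) * inr c * (inl (Pi.mulSingle 1 (.ofAdd 1)))⁻¹ :
      Wr (Multiplicative (ZMod m)) G)⁆ (by simp [commutatorElement_def])
  have e : n c = .ofAdd 2 := by
    have := congrFun (congrArg SemidirectProduct.left hn) c
    simp [commutatorElement_def, h, -mulAutArrow_apply_apply, arr] at this
    rw [← this, ← ofAdd_add, one_add_one_eq_two]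
  rw [hn, ← map_pow, map_eq_one_iff _ inl_injective] at hN
  have := congrFun hN c
  rw [Pi.pow_apply, e, ← ofAdd_nsmul, Pi.one_apply, ofAdd_eq_one] at this
  rw [← ZMod.natCast_eq_zero_iff, ← this]; simp [mul_comm]

theorem law3 {Q : Type} [CommGroup Q] {k : ℕ} (h : ∀ x : ℕ → G, ww k x = 1) (a b : Wr G Q) :
    uu k a b = 1 := by
  choose f hf using fun i => ex_inl ⁅a, b ^ (i + 1)⁆ ((map_commutatorElement rightHom _ _).trans
    (commutatorElement_eq_one_iff_mul_comm.2 (mul_comm _ _)))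
  rw [uu, funext hf, ← map_ww, map_eq_one_iff _ inl_injective]
  exact funext fun q => (map_ww (Pi.evalMonoidHom (fun _ => G) q) f k).trans (h _)

theorem non3 {k : ℕ} (m : ℕ) (hm : k + 4 < m) (x : ℕ → G) :
    ∃ a b : Wr G (Multiplicative (ZMod m)), ∀ N, uu k a b ^ N = 1 → ww k x ^ N = 1 := by
  let F : Multiplicative (ZMod m) → G := fun q =>
    if q = 1 then 1 else (x ((-q.toAdd).val - 1))⁻¹
  refine ⟨inl F, inr (.ofAdd 1), fun N hN => ?_⟩
  have e : ∀ i, ⁅(inl F : Wr G (Multiplicative (ZMod m))),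
      (inr (.ofAdd 1) : Wr G (Multiplicative (ZMod m))) ^ (i + 1)⁆ =
      inl (F * (mulAutArrow (Multiplicative.ofAdd ((i + 1 : ℕ) : ZMod m)) F)⁻¹) := fun i => by
    rw [← map_pow, ← ofAdd_nsmul, nsmul_one]
    ext1 <;> simp [commutatorElement_def]
  rw [uu, funext e, ← map_ww, ← map_pow, map_eq_one_iff _ inl_injective] at hN
  have := congrFun hN 1
  rw [Pi.pow_apply] at this
  refine (congrArg (· ^ N) ?_).trans this
  refine (ww_congr fun i hi => ?_).trans (map_ww (Pi.evalMonoidHom (fun _ => G) 1) _ k).symm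
  have h1 : ((i + 1 : ℕ) : ZMod m).val = i + 1 := ZMod.val_cast_of_lt (by omega)
  have h2 : ((i + 1 : ℕ) : ZMod m) ≠ 0 := fun e => by simp [e] at h1
  generalize ((i + 1 : ℕ) : ZMod m) = z at h1 h2
  simp [F, h1, h2, -mulAutArrow_apply_apply, arr]

end

abbrev VB (n : ℕ) := (Fin n → ZMod 2) × ZMod (2 ^ 3)

def gB (n : ℕ) : VB n →+ VB n →+ Matrix (Fin n) (Fin n) (ZMod 2) :=
  AddMonoidHom.mk' (fun a => AddMonoidHom.mk' (fun b => Matrix.vecMulVec a.1 b.1)
    fun _ _ => by ext; simp [Matrix.vecMulVec_apply, mul_add])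
    fun _ _ => by ext; simp [Matrix.vecMulVec_apply, add_mul]

theorem gB_apply {n : ℕ} (a b : VB n) : gB n a b = Matrix.vecMulVec a.1 b.1 := rfl

def HB (n : ℕ) : Subgroup (Cx (gB n)) where
  carrier := {g | g.v.1 = 0}
  mul_mem' := by simp +contextual
  one_mem' := rfl
  inv_mem' := by simp +contextual

theorem mem_HB {n : ℕ} {g : Cx (gB n)} : g ∈ HB n ↔ g.v.1 = 0 := Iff.rfl

def wB (n : ℕ) : Cx (gB n) := ⟨(0, 2), 1⟩

theorem p2g (n : ℕ) : P2 (Cx (gB n)) :=
  (((p2z 1).fn _).of (p2z 3) (Nat.card_prod _ _)).of (((p2z 1).fn (Fin n)).fn (Fin n)) card_cx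

instance (n : ℕ) : Finite (Cx (gB n)) := (p2g n).fin

noncomputable instance (n : ℕ) : Fintype (HB n) := Fintype.ofFinite _

theorem hcB (n : ℕ) : ∀ h ∈ HB n, ∀ g, h * g = g * h := fun h hh g =>
  commutatorElement_eq_one_iff_mul_comm.1 ((comm_iff _ _).2 (by simp [gB_apply, mem_HB.1 hh]))

theorem two {n : ℕ} (z : Matrix (Fin n) (Fin n) (ZMod 2)) : z + z = 0 := by
  ext; simp [CharTwo.add_self_eq_zero]

theorem sqB {n : ℕ} (x : ℕ → Cx (gB n)) (k : ℕ) : sq x k =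
    ⟨(0, 2 * ∑ i ∈ Finset.range k, (x (i + 4)).v.2),
      ∑ i ∈ Finset.range k, Matrix.vecMulVec (x (i + 4)).v.1 (x (i + 4)).v.1⟩ := by
  induction k with
  | zero => ext1 <;> simp [sq, Prod.ext_iff]
  | succ k ih =>
    have (a : Fin n → ZMod 2) : a + a = 0 := by ext; simp [CharTwo.add_self_eq_zero]
    rw [sq, ih]; ext1
    · simp [Finset.sum_range_succ, Prod.ext_iff, this]; ring
    · simp [Finset.sum_range_succ, gB_apply, two]

theorem rk {n k : ℕ} (h : k < n) (v : ℕ → Fin n → ZMod 2) :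
    ∑ i ∈ Finset.range k, Matrix.vecMulVec (v i) (v i) ≠ 1 := fun e => by
  have : (Matrix.of fun (i : Fin k) j => v i j).transpose * (Matrix.of fun (i : Fin k) j => v i j)
      = 1 := by
    rw [← e]; ext a b
    simp [Matrix.mul_apply, Matrix.sum_apply, Matrix.vecMulVec_apply, Finset.sum_range]
  have h2 := Matrix.rank_mul_le_right (Matrix.of fun (i : Fin k) j => v i j).transpose
    (Matrix.of fun (i : Fin k) j => v i j)
  have h3 := (Matrix.of fun (i : Fin k) j => v i j).rank_le_card_height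
  rw [this, Matrix.rank_one] at h2
  simp at h2 h3; omega

theorem w4 (n : ℕ) : wB n * wB n * (wB n * wB n) = 1 := by
  ext1 <;> simp [wB, gB_apply, two, Prod.ext_iff]; decide

theorem law0 {G : Type} [Group G] {H : Subgroup G} [Fintype H] {w : G}
    (hc : ∀ h ∈ H, ∀ g, h * g = g * h) (hw : w ∈ H) (h4 : w * w * (w * w) = 1)
    (hg : ∀ a b : G, ⁅a, b⁆ ∈ H) {k : ℕ} (h : ∀ x : ℕ → G, sq x k ∈ H ∧ (sq x k * sq x k = 1 ∨
      sq x k * sq x k = w * w ∧ sq x k ≠ w ∧ sq x k ≠ w⁻¹)) (x : ℕ → KK H w) : vv k x = 1 := by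
  have e : (sq x k).right = _ := map_sq rightHom x k
  refine law hc hw h4 ⁅⁅x 0, x 1⁆, x 2⁆ (sq x k) ?_ (e ▸ (h _).1) (e ▸ (h _).2)
  rw [← rightHom_eq_right, map_commutatorElement, map_commutatorElement,
    commutatorElement_eq_one_iff_mul_comm]
  exact hc _ (hg _ _) _

theorem law1 {n k : ℕ} (h : k < n) (x : ℕ → KK (HB n) (wB n)) : vv k x = 1 := by
  refine law0 (hcB n) (mem_HB.2 rfl) (w4 n) (fun a b => by simp [mem_HB, commutatorElement_def])
    (fun x => ?_) x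
  rw [sqB]
  refine ⟨rfl, ?_⟩
  generalize ∑ i ∈ Finset.range k, (x (i + 4)).v.2 = r
  have : 2 * r + 2 * r = 0 ∨ 2 * r + 2 * r = 2 + 2 := by revert r; decide
  refine this.imp (fun e => ?_) fun e => ⟨?_, fun e => rk h _ (congrArg Cx.z e),
    fun e => rk h _ ((congrArg Cx.z e).trans ?_)⟩
  · ext1 <;> simp [gB_apply, two, Prod.ext_iff, e]
  · ext1 <;> simp [wB, gB_apply, two, e]
  · simp [wB, gB_apply, neg_eq_iff_add_eq_zero, two]

theorem non1 (n : ℕ) : ∃ x : ℕ → KK (HB (n + 2)) (wB (n + 2)), vv (n + 2) x ≠ 1 := by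
  classical
  let e : ℕ → Cx (gB (n + 2)) := fun i =>
    ⟨(fun j => if j.1 = i then 1 else 0, if i = 0 then 1 else 0), 0⟩
  let x : ℕ → KK (HB (n + 2)) (wB (n + 2)) := fun i => if i = 0 then inl ⟨Pi.single 1 1, 0⟩ else
    inr (if i < 4 then e (i - 1) else e (i - 4))
  have s : sq x (n + 2) = inr (wB _) := by
    rw [sq_congr (y := fun i => inr (e (i - 4))) (fun i _ => by simp [x]), ← map_sq, sqB]
    congr 1; ext1
    · simp [e, wB]
    · ext a b
      simp [e, wB, Matrix.sum_apply, Matrix.vecMulVec_apply, Matrix.one_apply, Fin.ext_iff,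
        eq_comm]
  refine ⟨x, ?_⟩
  rw [vv, s]
  refine nonlaw (hcB _) rfl (w4 _) (fun h => ?_) (s := e 0) (t := e 1) (fun h => ?_) (fun h => ?_)
    (fun h => ?_) _ (by simp [x])
  · exact absurd (congrArg (·.v.2) h) (by simp [wB]; decide)
  · simpa [e] using congrFun (mem_HB.1 h) 0
  · simpa [e] using congrFun (mem_HB.1 h) 1
  · simpa [e] using congrFun (mem_HB.1 h) 0

abbrev LL (j : ℕ) := Wr (Wr (Multiplicative (ZMod (2 ^ j))) (KK (HB (j + 2)) (wB (j + 2))))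
  (Multiplicative (ZMod (2 ^ (j + 7))))

theorem p2l (j : ℕ) : P2 (LL j) :=
  p2w (p2w (p2z j) ((((p2z 1).fn _).of ((p2z 1).fn _) card_cx).of (p2g _) SemidirectProduct.card))
    (p2z _)

theorem lawL {j k : ℕ} (h : k < j) (a b : LL j) : uu (k + 2) a b = 1 :=
  law3 (law2 (law1 (by omega))) a b

theorem nonL (j : ℕ) : ∃ a b : LL j, ∀ N, uu (j + 2) a b ^ N = 1 → 2 ^ j ∣ 2 * N := by
  obtain ⟨x, hx⟩ := non1 j
  obtain ⟨y, hy⟩ := non2 (2 ^ j) x hx
  obtain ⟨a, b, h⟩ := non3 (k := j + 2) (2 ^ (j + 7))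
    ((by omega : j + 2 + 4 < j + 7).trans Nat.lt_two_pow_self) y
  exact ⟨a, b, fun N hN => hy N (h N hN)⟩

end Pool.Agent.H.MP_4a8797_al
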