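import Pool.Agent.H.MP_4a8797_al.B

set_option autoImplicit false
set_option linter.unusedSectionVars false

namespace Pool.Agent.H.MP_4a8797_al

open Filter Topology

theorem quot_td {G : Type} [Group G] [TopologicalSpace G] [IsTopologicalGroup G] [CompactSpace G]
    [TotallyDisconnectedSpace G] (N : Subgroup G) [N.Normal] (hN : IsClosed (N : Set G)) :
    TotallyDisconnectedSpace (G ⧸ N) := by
  have : TotallySeparatedSpace (G ⧸ N) := totallySeparatedSpace_iff_exists_isClopen.2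
    fun x y hxy => by
      obtain ⟨g, hg⟩ := QuotientGroup.mk_surjective (x⁻¹ * y)
      obtain ⟨U, hU⟩ := ProfiniteGrp.exist_openNormalSubgroup_sub_open_nhds_of_one
        (hN.isOpen_compl.preimage (by fun_prop : Continuous fun u : G => u⁻¹ * g))
        (show (1 : G)⁻¹ * g ∉ N from fun h => hxy (inv_mul_eq_one.1 (by
          rw [← hg, QuotientGroup.eq_one_iff]; simpa using h)))
      have ho : IsOpen (U.1.1.map (QuotientGroup.mk' N) : Set (G ⧸ N)) :=
        QuotientGroup.isOpenMap_coe _ U.1.2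
      refine ⟨(fun z => x⁻¹ * z) ⁻¹' U.1.1.map (QuotientGroup.mk' N),
        IsClopen.preimage ⟨Subgroup.isClosed_of_isOpen _ ho, ho⟩ (by fun_prop),
        ⟨1, U.1.1.one_mem, by simp⟩, fun ⟨u, hu, e⟩ => hU hu (QuotientGroup.eq.1 (e.trans hg.symm))⟩
  infer_instance

variable (L : ℕ → Type) [∀ j, Group (L j)] [∀ j, TopologicalSpace (L j)]
  [∀ j, DiscreteTopology (L j)] [∀ j, Finite (L j)]

abbrev PP := (i : Σ j, Fin 2 → L j) → L i.1

def gen (t : Fin 2) : PP L := fun i => i.2 t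

abbrev FF : Subgroup (PP L) := (Subgroup.closure (Set.range (gen L))).topologicalClosure

instance : CompactSpace (FF L) :=
  isCompact_iff_compactSpace.1 (Subgroup.isClosed_topologicalClosure _).isCompact

def xx (t : Fin 2) : FF L :=
  ⟨gen L t, Subgroup.le_topologicalClosure _ (Subgroup.subset_closure ⟨t, rfl⟩)⟩

variable {L}

theorem dense : Dense (Subgroup.closure (Set.range (xx L)) : Set (FF L)) := by
  rw [Subtype.dense_iff, ← Subgroup.coe_subtype, ← Subgroup.coe_map, MonoidHom.map_closure,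
    ← Set.range_comp]
  exact subset_rfl

theorem mem_of {G : Type} [Group G] [TopologicalSpace G] (f : FF L →* G) (hf : Continuous f)
    (S : Subgroup G) (hS : IsClosed (S : Set G)) (h : ∀ t, f (xx L t) ∈ S) (g : FF L) : f g ∈ S :=
  closure_minimal (t := f ⁻¹' S) ((Subgroup.closure_le (S.comap f)).2
    (Set.range_subset_iff.2 h)) (hS.preimage hf) (dense g)

theorem uniq {G : Type} [Group G] [TopologicalSpace G] [T2Space G] (f g : FF L →ₜ* G)
    (h : ∀ t, f (xx L t) = g (xx L t)) : f = g :=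
  DFunLike.coe_injective (Continuous.ext_on dense f.continuous g.continuous
    (MonoidHom.eqOn_closure (f := f.toMonoidHom) (g := g.toMonoidHom) (Set.forall_mem_range.2 h)))

theorem endo (a : Fin 2 → FF L) : ∃ f : FF L →* FF L, Continuous f ∧ ∀ t, f (xx L t) = a t := by
  let φ : FF L →* PP L := MonoidHom.pi fun i => (Pi.evalMonoidHom (fun i : Σ j, Fin 2 → L j => L i.1)
    ⟨i.1, fun t => (a t).1 i⟩).comp (FF L).subtype
  have hc : Continuous φ := continuous_pi fun i =>
    show Continuous fun g : FF L => g.1 _ from (continuous_apply _).comp continuous_subtype_val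
  exact ⟨φ.codRestrict (FF L) (mem_of φ hc _ (Subgroup.isClosed_topologicalClosure _)
    fun t => (a t).2), hc.subtype_mk _, fun t => rfl⟩

theorem tend (p2 : ∀ j, P2 (L j)) (g : FF L) : Tendsto (fun k => g ^ 2 ^ k) atTop (𝓝 1) := by
  refine tendsto_subtype_rng.2 (tendsto_pi_nhds.2 fun i => tendsto_const_nhds.congr' ?_)
  obtain ⟨n, hn⟩ := p2 i.1
  filter_upwards [eventually_ge_atTop n] with k hk
  exact (orderOf_dvd_iff_pow_eq_one.1 ((orderOf_dvd_natCard (g.1 i)).trans
    (hn ▸ pow_dvd_pow 2 hk))).symm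

theorem idx (p2 : ∀ j, P2 (L j)) {G : Type} [Group G] [TopologicalSpace G] [IsTopologicalGroup G] [CompactSpace G]
    (h : ∀ a : Fin 2 → G, ∃ f : FF L →* G, Continuous f ∧ ∀ t, f (xx L t) = a t) (N : Subgroup G)
    (hN : IsOpen (N : Set G)) [N.Normal] : ∃ k, N.index = 2 ^ k := by
  have := Subgroup.quotient_finite_of_isOpen N hN
  refine IsPGroup.iff_card.1 fun g => ?_
  obtain ⟨g, rfl⟩ := QuotientGroup.mk_surjective g
  obtain ⟨f, hf, e⟩ := h fun _ => g
  obtain ⟨k, hk⟩ := ((tend p2 (xx L 0)).eventually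
    ((hN.preimage hf).mem_nhds (by simp [N.one_mem]))).exists
  exact ⟨k, by rw [← QuotientGroup.mk_pow, QuotientGroup.eq_one_iff, ← e 0, ← map_pow]; exact hk⟩

theorem tors (lawL : ∀ {j k : ℕ} (_ : k < j) (a b : L j), uu (k + 2) a b = 1)
    (nonL : ∀ j, ∃ a b : L j, ∀ N, uu (j + 2) a b ^ N = 1 → 2 ^ j ∣ 2 * N) (N : ℕ) : ∃ g : FF L, IsOfFinOrder g ∧ N < orderOf g := by
  have e : ∀ i, (uu (N + 2 + 2) (xx L 0) (xx L 1)).1 i = uu (N + 2 + 2) (i.2 0) (i.2 1) := fun i =>
    map_uu ((Pi.evalMonoidHom (fun i : Σ j, Fin 2 → L j => L i.1) i).comp (FF L).subtype) _ _ _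
  have h : IsOfFinOrder (uu (N + 2 + 2) (xx L 0) (xx L 1)) := by
    refine isOfFinOrder_iff_pow_eq_one.2 ⟨∏ j ∈ Finset.range (N + 3), Nat.card (L j),
      Finset.prod_pos fun _ _ => Nat.card_pos, Subtype.ext (funext fun i => ?_)⟩
    rw [Subgroup.coe_pow, Pi.pow_apply, e]
    by_cases hi : N + 2 < i.1
    · exact (congrArg (· ^ _) (lawL hi (i.2 0) (i.2 1))).trans (one_pow _)
    · exact orderOf_dvd_iff_pow_eq_one.1 ((orderOf_dvd_natCard _).trans
        (Finset.dvd_prod_of_mem (fun j => Nat.card (L j)) (Finset.mem_range.2 (by omega))))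
  refine ⟨_, h, ?_⟩
  obtain ⟨a, b, hab⟩ := nonL (N + 2)
  have := congrFun (congrArg Subtype.val (pow_orderOf_eq_one (uu (N + 2 + 2) (xx L 0) (xx L 1))))
    ⟨N + 2, ![a, b]⟩
  rw [Subgroup.coe_pow, Pi.pow_apply, e] at this
  have h1 := Nat.le_of_dvd (by have := h.orderOf_pos; omega) (hab _ this)
  have h2 : N < 2 ^ N := Nat.lt_two_pow_self
  rw [pow_add] at h1
  omega

end Pool.Agent.H.MP_4a8797_al
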